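import Pool.Agent.Helper58_Revstack.Final

/-!
# MP_78620a_co: how many passes does revstack sort need

At most `3 n n! exp (-(2 t - n)² / (2 n))` permutations of `1, …, n` are not sorted by `t ≥ n / 2` passes
of revstack sort.
-/

set_option autoImplicit false

namespace Pool.Agent.Results.MP_78620a_co.RevstackTime

open Pool.Agent.Helper58_Revstack

theorem result (n t : ℕ) (hn : 1 ≤ n) (ht : n ≤ 2 * t) :
    ({w : List ℕ | w.Perm (List.range' 1 n) ∧ revstackSort^[t] w ≠ List.range' 1 n}.ncard : ℝ) ≤
      3 * n * n.factorial * Real.exp (-((2 * t - n : ℝ) ^ 2 / (2 * n))) :=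
  unsorted_exp n t hn ht

end Pool.Agent.Results.MP_78620a_co.RevstackTime
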