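import Pool.Agent.Helper58_Revstack.Final

/-!
# MP_78620a_co: Steingrimsson's conjecture above half of the range

For every `n ≥ 3` and every `t` with `n / 2 + √(2 n log n) ≤ t ≤ n - 2`, strictly fewer permutations
of `1, …, n` are sorted by `t` passes of stack sort than by `t` passes of revstack sort.
-/

set_option autoImplicit false

namespace Pool.Agent.Results.MP_78620a_co.StrictAboveHalf

open Pool.Agent.Helper58_Revstack

/-- the permutations of `1, …, n` (as words) sorted by `t` passes of the stack sort operator -/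
def Stack (n t : ℕ) : Set (List ℕ) :=
  {w | w.Perm (List.range' 1 n) ∧ stackSort^[t] w = List.range' 1 n}

/-- the permutations of `1, …, n` (as words) sorted by `t` passes of the revstack sort operator -/
def Tack (n t : ℕ) : Set (List ℕ) :=
  {w | w.Perm (List.range' 1 n) ∧ revstackSort^[t] w = List.range' 1 n}

theorem result (n t : ℕ) (hn : 3 ≤ n) (ht : (n : ℝ) / 2 + √(2 * n * Real.log n) ≤ t)
    (htn : t + 2 ≤ n) : (Stack n t).ncard < (Tack n t).ncard := by
  have hn0 : (3 : ℝ) ≤ n := by exact_mod_cast hn
  have hlog : 0 ≤ Real.log n := Real.log_nonneg (by linarith)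
  have hs : 0 ≤ √(2 * n * Real.log n) := Real.sqrt_nonneg _
  have h1 : n ≤ 2 * t := by
    have : (n : ℝ) ≤ 2 * t := by linarith
    exact_mod_cast this
  refine strict n t (by omega) h1 htn ?_
  have h2 : 2 * √(2 * n * Real.log n) ≤ 2 * t - n := by linarith
  have h3 : (2 * √(2 * n * Real.log n)) ^ 2 ≤ (2 * t - n : ℝ) ^ 2 :=
    pow_le_pow_left₀ (by positivity) h2 2
  rw [mul_pow, Real.sq_sqrt (by positivity)] at h3
  refine le_trans ?_ h3
  rw [Real.log_mul (by norm_num) (by positivity), Real.log_pow]
  have h4 : Real.log 3 ≤ Real.log n := Real.log_le_log (by norm_num) hn0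
  push_cast
  nlinarith

end Pool.Agent.Results.MP_78620a_co.StrictAboveHalf
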